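import Pool.Agent.Work.MP_db9399_ow_helper59.STB

/-!
# MP_db9399, OWN, block STPC (helper59)
-/

set_option autoImplicit false

namespace Pool.Agent.Work.MP_db9399_ow.helper59

open Finset Classical
open Pool.Agent.Work.MP_db9399_all (nb mis pr DepOnI)
open Pool.Agent.Work.MP_db9399_en (ex)

universe u

theorem stmt_STPC : Stmt_STPC.{u} := by
  intro V _ P J R _ _ G d g e Q U c n u er rr gn ν D Bt Pr γ η ε ε1 νb a A O H gn' hgn
  have hd : (0 : ℝ) < d := by exact_mod_cast H.d0
  have hsub := biU H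
  refine ⟨?_, ?_, ?_, ?_⟩
  · intro v hv
    by_cases h1 : v ∈ Bt.biUnion A
    · exact ((H.bt _).1 (ncol_mem c h1).1).2
    · rw [ncol_not c h1]
      rcases mem_nU.1 hv with h2 | h2
      · have := H.stt.low v h2
        omega
      · exact absurd h2 h1
  · intro v w hv hw hvw heq
    by_cases h1 : v ∈ Bt.biUnion A <;> by_cases h2 : w ∈ Bt.biUnion A
    · have h3 := ncol_mem c h1
      have h4 := ncol_mem c h2
      rw [← heq] at h4
      exact H.bch.ind _ v h3.2 w h4.2 hvw
    · have h3 := (H.bt _).1 (ncol_mem c h1).1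
      have h4 := (mem_nU.1 hw).resolve_right h2
      have h5 := H.stt.low w h4
      rw [heq, ncol_not c h2] at h3
      omega
    · have h3 := (H.bt _).1 (ncol_mem c h2).1
      have h4 := (mem_nU.1 hv).resolve_right h1
      have h5 := H.stt.low v h4
      rw [← heq, ncol_not c h1] at h3
      omega
    · rw [ncol_not c h1, ncol_not c h2] at heq
      exact H.stt.prp v w ((mem_nU.1 hv).resolve_right h1) ((mem_nU.1 hw).resolve_right h2) hvw heq
  · intro q
    have h1 := H.stt.upp q
    have h2 := H.bch.upp q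
    have h3 : (Q q).filter (fun y => y.2 ∉ nU Bt A U ∧ ncol Bt A c y.2 = y.1) ⊆
        (Q q).filter (fun y => y.2 ∉ U ∧ c y.2 = y.1) ∪
          (Q q).filter (fun y => y.1 ∈ Bt ∧ y.2 ∈ O y.1) := by
      intro y hy
      rw [Finset.mem_filter] at hy
      obtain ⟨hy1, hy2, hy3⟩ := hy
      rw [Finset.mem_union, Finset.mem_filter, Finset.mem_filter]
      by_cases h4 : y.2 ∈ Bt.biUnion A
      · have h5 := ncol_mem c h4
        rw [hy3] at h5
        exact Or.inr ⟨hy1, h5.1, H.bch.AO _ h5.2⟩
      · rw [ncol_not c h4] at hy3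
        exact Or.inl ⟨hy1, (mem_nU.1 hy2).resolve_right h4, hy3⟩
    have h4 := le_trans (Finset.card_le_card h3) (Finset.card_union_le _ _)
    have h5 : (((Q q).filter (fun y => y.2 ∉ nU Bt A U ∧ ncol Bt A c y.2 = y.1)).card : ℝ) ≤
        (((Q q).filter (fun y => y.2 ∉ U ∧ c y.2 = y.1)).card : ℝ) +
          (((Q q).filter (fun y => y.1 ∈ Bt ∧ y.2 ∈ O y.1)).card : ℝ) := by exact_mod_cast h4
    linarith
  · intro v
    have hold := H.stt.cnt v
    -- colours
    have h1 : (univ.filter (fun b => ∃ w ∈ nb G v, w ∉ nU Bt A U ∧ ncol Bt A c w = b)) ⊆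
        (univ.filter (fun b => ∃ w ∈ nb G v, w ∉ U ∧ c w = b)) ∪
          Bt.filter (fun b => 1 ≤ (nb G v ∩ A b).card) := by
      intro b hb
      rw [Finset.mem_filter] at hb
      obtain ⟨-, w, hw1, hw2, hw3⟩ := hb
      rw [Finset.mem_union, Finset.mem_filter, Finset.mem_filter]
      by_cases h4 : w ∈ Bt.biUnion A
      · have h5 := ncol_mem c h4
        rw [hw3] at h5
        exact Or.inr ⟨h5.1, Finset.card_pos.2 ⟨w, Finset.mem_inter.2 ⟨hw1, h5.2⟩⟩⟩
      · rw [ncol_not c h4] at hw3
        exact Or.inl ⟨Finset.mem_univ _, w, hw1, (mem_nU.1 hw2).resolve_right h4, hw3⟩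
    have h2 := le_trans (Finset.card_le_card h1) (Finset.card_union_le _ _)
    have h2' : ((univ.filter (fun b => ∃ w ∈ nb G v, w ∉ nU Bt A U ∧
        ncol Bt A c w = b)).card : ℝ) ≤
        ((univ.filter (fun b => ∃ w ∈ nb G v, w ∉ U ∧ c w = b)).card : ℝ) +
          ((Bt.filter (fun b => 1 ≤ (nb G v ∩ A b).card)).card : ℝ) := by exact_mod_cast h2
    -- multiplicities of the colours
    have h3 : ((Bt.filter (fun b => 1 ≤ (nb G v ∩ A b).card)).card : ℝ) +
        ((Bt.filter (fun b => 2 ≤ (nb G v ∩ A b).card)).card : ℝ) ≤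
        ∑ b ∈ Bt, ((nb G v ∩ A b).card : ℝ) := by
      rw [Finset.card_filter, Finset.card_filter, Nat.cast_sum, Nat.cast_sum,
        ← Finset.sum_add_distrib]
      apply Finset.sum_le_sum
      intro b _
      rcases Nat.lt_or_ge (nb G v ∩ A b).card 2 with h | h
      · rcases Nat.lt_or_ge (nb G v ∩ A b).card 1 with h' | h'
        · have : (nb G v ∩ A b).card = 0 := by omega
          simp [this]
        · have : (nb G v ∩ A b).card = 1 := by omega
          simp [this]
      · have h' : 1 ≤ (nb G v ∩ A b).card := by omega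
        have h'' : (2 : ℝ) ≤ ((nb G v ∩ A b).card : ℝ) := by exact_mod_cast h
        rw [if_pos h, if_pos h']
        push_cast
        linarith
    -- multiplicities of the vertices
    have h4 := mult_le Bt A O H.bch.AO (fun w => if G.Adj v w then 1 / (2 * (d : ℝ)) else 0)
      (fun w => by
        split_ifs
        · positivity
        · exact le_rfl)
    have h5 := H.bch.mlt (Sum.inl (Sum.inl v))
    simp only [Fm, Hc] at h5
    have e1 : ∀ X : Finset V, ∑ w ∈ X, (if G.Adj v w then 1 / (2 * (d : ℝ)) else 0) =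
        ((nb G v ∩ X).card : ℝ) / (2 * d) := by
      intro X
      rw [← Finset.sum_filter, Finset.sum_const, nsmul_eq_mul]
      have : X.filter (fun w => G.Adj v w) = nb G v ∩ X := by
        ext w
        simp [nb, and_comm]
      rw [this]
      ring
    have h6 : ∑ b ∈ Bt, ((nb G v ∩ A b).card : ℝ) / (2 * d) ≤
        ((nb G v ∩ Bt.biUnion A).card : ℝ) / (2 * d) + ε1 := by
      have h7 : ∑ b ∈ Bt, ((nb G v ∩ A b).card : ℝ) / (2 * d) =
          ∑ b ∈ Bt, ∑ w ∈ A b, (if G.Adj v w then 1 / (2 * (d : ℝ)) else 0) :=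
        Finset.sum_congr rfl fun b _ => (e1 (A b)).symm
      rw [h7, ← e1]
      linarith
    have h7 : ∑ b ∈ Bt, ((nb G v ∩ A b).card : ℝ) ≤
        ((nb G v ∩ Bt.biUnion A).card : ℝ) + 2 * d * ε1 := by
      rw [← Finset.sum_div, div_le_iff₀ (by positivity)] at h6
      have h8 : (((nb G v ∩ Bt.biUnion A).card : ℝ) / (2 * d) + ε1) * (2 * d) =
          ((nb G v ∩ Bt.biUnion A).card : ℝ) + 2 * d * ε1 := by
        field_simp
      linarith
    -- the uncoloured neighbours
    have h8 : (nb G v ∩ nU Bt A U).card + (nb G v ∩ Bt.biUnion A).card = (nb G v ∩ U).card := by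
      have h9 : nb G v ∩ U = (nb G v ∩ nU Bt A U) ∪ (nb G v ∩ Bt.biUnion A) := by
        ext w
        simp only [Finset.mem_inter, Finset.mem_union, nU, Finset.mem_sdiff]
        constructor
        · rintro ⟨h10, h11⟩
          by_cases h12 : w ∈ Bt.biUnion A
          · exact Or.inr ⟨h10, h12⟩
          · exact Or.inl ⟨h10, h11, h12⟩
        · rintro (⟨h10, h11, -⟩ | ⟨h10, h11⟩)
          · exact ⟨h10, h11⟩
          · exact ⟨h10, hsub h11⟩
      rw [h9, Finset.card_union_of_disjoint]
      rw [Finset.disjoint_left]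
      intro w hw hw'
      have h10 := (Finset.mem_inter.1 hw).2
      unfold nU at h10
      exact (Finset.mem_sdiff.1 h10).2 (Finset.mem_inter.1 hw').2
    have h8' : ((nb G v ∩ nU Bt A U).card : ℝ) + ((nb G v ∩ Bt.biUnion A).card : ℝ) =
        ((nb G v ∩ U).card : ℝ) := by exact_mod_cast h8
    have h9 : gn' ≤ gn + ((Bt.filter (fun b => 2 ≤ (nb G v ∩ A b).card)).card : ℝ) := by
      rcases hgn with h10 | ⟨h10, h11⟩
      · rw [h10]
        have : (0 : ℝ) ≤ ((Bt.filter (fun b => 2 ≤ (nb G v ∩ A b).card)).card : ℝ) :=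
          Nat.cast_nonneg _
        linarith
      · have h12 := H.bch.two v (h10 v)
        linarith
    nlinarith

end Pool.Agent.Work.MP_db9399_ow.helper59
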