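import Pool.Agent.Work.MP_db9399_ow_helper59.STB

/-!
# MP_db9399, OWN, block STPI (helper59)
-/

set_option autoImplicit false

namespace Pool.Agent.Work.MP_db9399_ow.helper59

open Finset Classical
open Pool.Agent.Work.MP_db9399_all (nb mis pr DepOnI)
open Pool.Agent.Work.MP_db9399_en (ex)

universe u

theorem Hc_sum {V : Type u} [Fintype V] {P : ℕ} {J R : Type u} [Fintype J] [Fintype R]
    {G : SimpleGraph V} {d : ℕ} {g : J → Fin P → V → ℝ} {e : J → ℝ}
    {Q : R → Finset (Fin P × V)} {U : Finset V} {c : V → Fin P} {n : ℕ} {u er rr gn ν : ℝ}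
    {D : ℕ} {Bt : Finset (Fin P)} {Pr : V → ℝ} {γ η ε ε1 νb a : ℝ} {A O : Fin P → Finset V}
    (H : Hyp G d g e Q U c n u er rr gn ν D Bt Pr γ η ε ε1 νb a A O)
    (τ : V ⊕ (J × Fin P × Bool)) : ∑ v, Hc G d g τ v ≤ 1 := by
  have hd : (0 : ℝ) < d := by exact_mod_cast H.d0
  rcases τ with v | ⟨j, b, s⟩
  · have e2 : ∑ w, Hc G d g (Sum.inl v) w = ((nb G v).card : ℝ) / (2 * d) := by
      simp only [Hc]
      rw [← Finset.sum_filter, Finset.sum_const, nsmul_eq_mul]
      have : univ.filter (fun w => G.Adj v w) = nb G v := rfl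
      rw [this]
      ring
    rw [e2, div_le_one (by positivity)]
    have h1 := (abs_le.1 (H.deg v)).2
    have h2 : η ≤ 1 / 10 := by
      have h3 := H.th
      have h4 : 0 ≤ 2 * er / u := div_nonneg (by linarith [H.er0]) (upos H).le
      linarith
    nlinarith
  · refine le_trans ?_ (H.sm j b)
    apply Finset.sum_le_sum
    intro v _
    simp only [Hc]
    rw [abs_pm (g j b v)]
    cases s
    · simp only [Bool.false_eq_true, if_false]
      have := le_max_right (g j b v) 0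
      linarith
    · simp only [if_true]
      have := le_max_right (-g j b v) 0
      linarith

theorem r1 (z u d Z Y : ℝ) (hu : u ≠ 0) (hd : d ≠ 0) :
    z * d * Z - z / u * Y = z * d * (Z - 1 / (u * d) * Y) := by
  field_simp

theorem r2 (z u d θ Y : ℝ) (hu : u ≠ 0) (hd : d ≠ 0) :
    z * d * (θ / (u * d) * Y) = z / u * θ * Y := by
  field_simp

theorem r3 (z u θ : ℝ) (hu : u ≠ 0) : z / u * θ * (11 / 10 * u) = 11 / 10 * z * θ := by
  field_simp

theorem r4 (z u d X Y Z W T : ℝ) (hu : u ≠ 0) :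
    Y - W - (u - z) * X = (1 - z / u) * (Y - u * X) + (T - W) - (T - z * d * Z) -
      (z * d * Z - z / u * Y) := by
  field_simp
  ring

theorem stmt_STPI : Stmt_STPI.{u} := by
  intro V _ P J R _ _ G d g e Q U c n u er rr gn ν D Bt Pr γ η ε ε1 νb a A O H τ
  have hu := upos H
  have hd : (0 : ℝ) < d := by exact_mod_cast H.d0
  set h := Hc G d g τ with hh
  have h0 : ∀ v, 0 ≤ h v := fun v => Hc_nn τ v
  obtain ⟨z, hz⟩ : ∃ z : ℝ, z = (Bt.card : ℝ) / d := ⟨_, rfl⟩
  have hz0 : 0 ≤ z := by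
    rw [hz]
    positivity
  have hzu : z < u := by
    rw [hz]
    exact H.uz
  have hzd : (Bt.card : ℝ) = z * d := by
    rw [hz, div_mul_cancel₀ _ hd.ne']
  rw [← hz]
  set X := ∑ v, h v with hX
  have hX1 : X ≤ 1 := Hc_sum H τ
  have hX0 : 0 ≤ X := Finset.sum_nonneg fun v _ => h0 v
  set Y := ∑ v ∈ U, h v with hY
  have hinv : |Y - u * X| ≤ er := H.stt.inv τ
  set W := ∑ v ∈ Bt.biUnion A, h v with hW
  have hsub := biU H
  have hnU : ∑ v ∈ nU Bt A U, h v = Y - W := by
    have := Finset.sum_sdiff (f := h) hsub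
    unfold nU
    linarith
  set T := ∑ b ∈ Bt, ∑ v ∈ A b, h v with hT
  have hW1 : W ≤ T := bi_le Bt A h h0
  have hW2 : T ≤ W + ε1 := by
    refine le_trans (mult_le Bt A O H.bch.AO h h0) ?_
    have := H.bch.mlt (Sum.inl τ)
    simp only [Fm] at this
    linarith
  set Z := ∑ v ∈ U, Pr v * h v with hZ
  have hdev : |T - z * d * Z| ≤ ε := by
    have h1 := H.bch.dev (Sum.inl τ)
    simp only [Fm] at h1
    rw [Finset.sum_sub_distrib, Finset.sum_const, nsmul_eq_mul, hzd] at h1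
    exact h1
  have hpr := sumPr H h
  have habs : ∑ v ∈ U, |h v| = Y := Finset.sum_congr rfl fun v _ => abs_of_nonneg (h0 v)
  rw [habs] at hpr
  set θ := 4 * er / u + 2 * η + 2 * γ with hθ
  have hθ0 : 0 ≤ θ := by
    have := H.er0
    have := H.η0
    have := H.ga0
    positivity
  -- multiply by z d
  have h2 : |z * d * Z - z / u * Y| ≤ z / u * θ * Y := by
    rw [r1 z u d Z Y hu.ne' hd.ne', abs_mul, abs_of_nonneg (by positivity : 0 ≤ z * d)]
    calc z * d * |Z - 1 / (u * d) * Y| ≤ z * d * (θ / (u * d) * Y) :=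
          mul_le_mul_of_nonneg_left hpr (by positivity)
      _ = z / u * θ * Y := r2 z u d θ Y hu.ne' hd.ne'
  have hY0 : 0 ≤ Y := Finset.sum_nonneg fun v _ => h0 v
  have hYu : Y ≤ 11 / 10 * u := by
    have h3 := (abs_le.1 hinv).2
    have h4 := H.eu
    nlinarith
  have h5 : z / u * θ * Y ≤ 11 / 10 * z * θ := by
    calc z / u * θ * Y ≤ z / u * θ * (11 / 10 * u) :=
          mul_le_mul_of_nonneg_left hYu (by positivity)
      _ = 11 / 10 * z * θ := r3 z u θ hu.ne'
  have hzu1 : z / u ≤ 1 := by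
    rw [div_le_one hu]
    exact hzu.le
  -- the identity
  rw [hnU]
  rw [r4 z u d X Y Z W T hu.ne']
  have k1 : |(1 - z / u) * (Y - u * X)| ≤ er := by
    rw [abs_mul, abs_of_nonneg (by linarith : 0 ≤ 1 - z / u)]
    have h6 : 0 ≤ z / u := by positivity
    have := H.er0
    nlinarith [abs_nonneg (Y - u * X)]
  have k2 : |T - W| ≤ ε1 := by
    rw [abs_of_nonneg (by linarith)]
    linarith
  have k3 := abs_sub ((1 - z / u) * (Y - u * X) + (T - W) - (T - z * d * Z)) (z * d * Z - z / u * Y)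
  have k4 := abs_sub ((1 - z / u) * (Y - u * X) + (T - W)) (T - z * d * Z)
  have k5 := abs_add_le ((1 - z / u) * (Y - u * X)) (T - W)
  have k6 : 11 / 10 * z * θ ≤ er * (9 * z / u) + 4 * z * (η + γ) := by
    have h7 : er * (9 * z / u) = 9 * z * (er / u) := by ring
    rw [h7, hθ]
    have h8 : 4 * er / u = 4 * (er / u) := by ring
    rw [h8]
    have h9 : 0 ≤ z * (er / u) := mul_nonneg hz0 (div_nonneg H.er0 hu.le)
    have h10 : 0 ≤ z * η := mul_nonneg hz0 H.η0
    have h11 : 0 ≤ z * γ := mul_nonneg hz0 H.ga0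
    nlinarith
  have k7 : er * (1 + 9 * z / u) = er + er * (9 * z / u) := by ring
  rw [k7]
  linarith

end Pool.Agent.Work.MP_db9399_ow.helper59
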