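import Pool.Agent.Work.MP_db9399_ow_helper59.STB

/-!
# MP_db9399, OWN, block STPO (helper59)
-/

set_option autoImplicit false

namespace Pool.Agent.Work.MP_db9399_ow.helper59

open Finset Classical
open Pool.Agent.Work.MP_db9399_all (nb mis pr DepOnI)
open Pool.Agent.Work.MP_db9399_en (ex)

universe u

section

variable {V : Type u} [Fintype V] {P : ℕ} {J R : Type u} [Fintype J] [Fintype R]
  {G : SimpleGraph V} {d : ℕ} {g : J → Fin P → V → ℝ} {e : J → ℝ}
  {Q : R → Finset (Fin P × V)} {U : Finset V} {c : V → Fin P} {n : ℕ} {u er rr gn ν : ℝ}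
  {D : ℕ} {Bt : Finset (Fin P)} {Pr : V → ℝ} {γ η ε ε1 νb a : ℝ} {A O : Fin P → Finset V}

/-- sums of a test over `U` -/
theorem sumU (H : Hyp G d g e Q U c n u er rr gn ν D Bt Pr γ η ε ε1 νb a A O) (j : J)
    (b : Fin P) : |∑ v ∈ U, g j b v - u * ∑ v, g j b v| ≤ 2 * er ∧
      |(∑ v ∈ U, |g j b v|) - u * (∑ v, |g j b v|)| ≤ 2 * er := by
  have h1 := H.stt.inv (Sum.inr (j, b, true))
  have h2 := H.stt.inv (Sum.inr (j, b, false))
  simp only [Hc, if_true, Bool.false_eq_true, if_false] at h1 h2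
  have e1 : ∑ v ∈ U, g j b v = ∑ v ∈ U, max (g j b v) 0 - ∑ v ∈ U, max (-g j b v) 0 := by
    rw [← Finset.sum_sub_distrib]
    exact Finset.sum_congr rfl fun v _ => eq_pm _
  have e2 : ∑ v, g j b v = ∑ v, max (g j b v) 0 - ∑ v, max (-g j b v) 0 := by
    rw [← Finset.sum_sub_distrib]
    exact Finset.sum_congr rfl fun v _ => eq_pm _
  have e3 : ∑ v ∈ U, |g j b v| = ∑ v ∈ U, max (g j b v) 0 + ∑ v ∈ U, max (-g j b v) 0 := by
    rw [← Finset.sum_add_distrib]
    exact Finset.sum_congr rfl fun v _ => abs_pm _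
  have e4 : ∑ v, |g j b v| = ∑ v, max (g j b v) 0 + ∑ v, max (-g j b v) 0 := by
    rw [← Finset.sum_add_distrib]
    exact Finset.sum_congr rfl fun v _ => abs_pm _
  rw [abs_le] at h1 h2
  rw [e1, e2, e3, e4]
  constructor <;> rw [abs_le] <;> constructor <;> nlinarith [h1.1, h1.2, h2.1, h2.2]

theorem s1 (u d X er θ : ℝ) (hu : u ≠ 0) (hd : d ≠ 0) :
    1 / (u * d) * (u * X + 2 * er) + θ / (u * d) * (6 / 5 * u) =
      1 / d * X + 1 / d * (2 * (er / u) + 6 / 5 * θ) := by
  field_simp
  ring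

/-- the expected sum of a test over a class -/
theorem prU (H : Hyp G d g e Q U c n u er rr gn ν D Bt Pr γ η ε ε1 νb a A O) (j : J)
    (b : Fin P) : |∑ v ∈ U, Pr v * g j b v| ≤ 1 / d * |∑ v, g j b v| +
        1 / d * (14 * (er / u) + 6 * η + 6 * γ) ∧
      ∑ v ∈ U, Pr v * |g j b v| ≤ 1 / d * ∑ v, |g j b v| +
        1 / d * (14 * (er / u) + 6 * η + 6 * γ) := by
  have hu := upos H
  have hd : (0 : ℝ) < d := by exact_mod_cast H.d0
  have hud : 0 < u * d := mul_pos hu hd
  obtain ⟨h1, h2⟩ := sumU H j b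
  have h3 := sumPr H (g j b)
  have h4 := sumPr H (fun v => |g j b v|)
  simp only [abs_abs] at h4
  obtain ⟨θ, hθ⟩ : ∃ θ, θ = 4 * er / u + 2 * η + 2 * γ := ⟨_, rfl⟩
  rw [← hθ] at h3 h4
  have heu0 : 0 ≤ er / u := div_nonneg H.er0 hu.le
  have hη := H.η0
  have hγ := H.ga0
  have hθ' : θ = 4 * (er / u) + 2 * η + 2 * γ := by
    rw [hθ]
    ring
  have hθ0 : 0 ≤ θ := by
    rw [hθ']
    positivity
  have hs := H.sm j b
  have heu := H.eu
  have h5 : ∑ v ∈ U, |g j b v| ≤ 6 / 5 * u := by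
    have := (abs_le.1 h2).2
    nlinarith
  have h6 : θ / (u * d) * ∑ v ∈ U, |g j b v| ≤ θ / (u * d) * (6 / 5 * u) :=
    mul_le_mul_of_nonneg_left h5 (by positivity)
  have h7 : |∑ v ∈ U, g j b v| ≤ u * |∑ v, g j b v| + 2 * er := by
    have h8 := abs_add_le (∑ v ∈ U, g j b v - u * ∑ v, g j b v) (u * ∑ v, g j b v)
    rw [sub_add_cancel, abs_mul, abs_of_pos hu] at h8
    linarith
  have h9 : 1 / d * (2 * (er / u) + 6 / 5 * θ) ≤ 1 / d * (14 * (er / u) + 6 * η + 6 * γ) := by
    apply mul_le_mul_of_nonneg_left _ (by positivity)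
    rw [hθ']
    nlinarith
  constructor
  · have h8 := abs_add_le (∑ v ∈ U, Pr v * g j b v - 1 / (u * d) * ∑ v ∈ U, g j b v)
      (1 / (u * d) * ∑ v ∈ U, g j b v)
    rw [sub_add_cancel] at h8
    have h10 : |1 / (u * d) * ∑ v ∈ U, g j b v| ≤
        1 / (u * d) * (u * |∑ v, g j b v| + 2 * er) := by
      rw [abs_mul, abs_of_pos (by positivity : 0 < 1 / (u * d))]
      exact mul_le_mul_of_nonneg_left h7 (by positivity)
    have h11 := s1 u d (|∑ v, g j b v|) er θ hu.ne' hd.ne'
    linarith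
  · have h8 := (abs_le.1 h4).2
    have h10 : 1 / (u * d) * ∑ v ∈ U, |g j b v| ≤
        1 / (u * d) * (u * ∑ v, |g j b v| + 2 * er) := by
      apply mul_le_mul_of_nonneg_left _ (by positivity)
      have := (abs_le.1 h2).2
      linarith
    have h11 := s1 u d (∑ v, |g j b v|) er θ hu.ne' hd.ne'
    linarith

/-- the square roots -/
theorem sq_step (u z : ℝ) (hz : 0 ≤ z) (hzu : z < u) :
    65 * (z / √u) ≤ 130 * (√u - √(u - z)) := by
  have hu : 0 < u := lt_of_le_of_lt hz hzu
  have h1 : 0 < √u := Real.sqrt_pos.2 hu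
  have h2 : √(u - z) ≤ √u := Real.sqrt_le_sqrt (by linarith)
  have h3 : √u ^ 2 = u := Real.sq_sqrt hu.le
  have h4 : √(u - z) ^ 2 = u - z := Real.sq_sqrt (by linarith)
  have h5 : z / √u ≤ 2 * (√u - √(u - z)) := by
    rw [div_le_iff₀ h1]
    nlinarith [Real.sqrt_nonneg (u - z)]
  linarith

theorem sq_new (u z d D e : ℝ) (hd : 0 < d) (hz : 0 ≤ z) (hu : 0 < u) (he : 0 ≤ e)
    (hD : u * d / 2 ≤ D) : z * d * √(2100 * (e / d) / D) ≤ 65 * (z / √u) * √e := by
  have hD0 : 0 < D := lt_of_lt_of_le (by positivity) hD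
  have h1 : 0 < √u := Real.sqrt_pos.2 hu
  have h2 : √(2100 * (e / d) / D) ≤ 65 * (√e / (√u * d)) := by
    rw [Real.sqrt_le_left (by positivity)]
    have h3 : (65 * (√e / (√u * d))) ^ 2 = 4225 * e / (u * d ^ 2) := by
      rw [mul_pow, div_pow, mul_pow, Real.sq_sqrt he, Real.sq_sqrt hu.le]
      ring
    rw [h3, div_le_div_iff₀ hD0 (by positivity)]
    have h4 : 2100 * (e / d) * (u * d ^ 2) = 4200 * e * (u * d / 2) := by
      field_simp
      ring
    rw [h4]
    calc 4200 * e * (u * d / 2) ≤ 4200 * e * D := mul_le_mul_of_nonneg_left hD (by positivity)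
      _ ≤ 4225 * e * D := by
        apply mul_le_mul_of_nonneg_right _ hD0.le
        linarith
  calc z * d * √(2100 * (e / d) / D) ≤ z * d * (65 * (√e / (√u * d))) :=
        mul_le_mul_of_nonneg_left h2 (by positivity)
    _ = 65 * (z / √u) * √e := by
      field_simp

/-- the colours below `n + |Bt|` -/
theorem filt_bt (Bt : Finset (Fin P)) (n : ℕ)
    (bt : ∀ b : Fin P, b ∈ Bt ↔ n ≤ (b : ℕ) ∧ (b : ℕ) < n + Bt.card) (F : Fin P → ℝ) :
    ∑ b ∈ univ.filter (fun b : Fin P => (b : ℕ) < n + Bt.card), F b =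
      ∑ b ∈ univ.filter (fun b : Fin P => (b : ℕ) < n), F b + ∑ b ∈ Bt, F b := by
  rw [← Finset.sum_union]
  · apply Finset.sum_congr _ fun _ _ => rfl
    ext b
    simp only [Finset.mem_filter, Finset.mem_univ, true_and, Finset.mem_union, bt b]
    omega
  · rw [Finset.disjoint_left]
    intro b hb hb'
    rw [Finset.mem_filter] at hb
    rw [bt b] at hb'
    omega

end

theorem stmt_STPO : Stmt_STPO.{u} := by
  intro V _ P J R _ _ G d g e Q U c n u er rr gn ν D Bt Pr γ η ε ε1 νb a A O H rr' hrr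
  have hu := upos H
  have hd : (0 : ℝ) < d := by exact_mod_cast H.d0
  obtain ⟨z, hz⟩ : ∃ z : ℝ, z = (Bt.card : ℝ) / d := ⟨_, rfl⟩
  have hz0 : 0 ≤ z := by
    rw [hz]
    positivity
  have hzu : z < u := by
    rw [hz]
    exact H.uz
  have hzd : (Bt.card : ℝ) = z * d := by
    rw [hz, div_mul_cancel₀ _ hd.ne']
  rw [← hz] at hrr ⊢
  have hsub := biU H
  obtain ⟨κ, hκ⟩ : ∃ κ, κ = 14 * (er / u) + 6 * η + 6 * γ := ⟨_, rfl⟩
  have hrr2 : rr + z * κ + 2 * ε + 2 * ε1 ≤ rr' := by
    have : 14 * er / u + 6 * η + 6 * γ = κ := by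
      rw [hκ]
      ring
    rw [← this]
    exact hrr
  have hε := H.ε0
  have hε1 := H.ε10
  -- the sum over the new colours of the errors
  have hκs : ∀ F : Fin P → ℝ, ∑ b ∈ Bt, (1 / (d : ℝ) * F b + 1 / d * κ) =
      1 / (d : ℝ) * ∑ b ∈ Bt, F b + z * κ := by
    intro F
    rw [Finset.sum_add_distrib, Finset.mul_sum, Finset.sum_const, nsmul_eq_mul, hzd]
    congr 1
    field_simp
  -- both parts of a mixed test
  have hdev2 : ∀ j, ∑ b ∈ Bt, ∑ v ∈ A b, |g j b v| ≤
      ∑ b ∈ Bt, ∑ v ∈ U, Pr v * |g j b v| + 2 * ε := by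
    intro j
    have h1 := (abs_le.1 (H.bch.dev (Sum.inr (j, true)))).2
    have h2 := (abs_le.1 (H.bch.dev (Sum.inr (j, false)))).2
    simp only [Fm, if_true, Bool.false_eq_true, if_false] at h1 h2
    rw [Finset.sum_sub_distrib] at h1 h2
    have e1 : ∑ b ∈ Bt, ∑ v ∈ A b, |g j b v| =
        ∑ b ∈ Bt, ∑ v ∈ A b, max (g j b v) 0 + ∑ b ∈ Bt, ∑ v ∈ A b, max (-g j b v) 0 := by
      rw [← Finset.sum_add_distrib]
      apply Finset.sum_congr rfl
      intro b _
      rw [← Finset.sum_add_distrib]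
      exact Finset.sum_congr rfl fun v _ => abs_pm _
    have e2 : ∑ b ∈ Bt, ∑ v ∈ U, Pr v * |g j b v| =
        ∑ b ∈ Bt, ∑ v ∈ U, Pr v * max (g j b v) 0 +
          ∑ b ∈ Bt, ∑ v ∈ U, Pr v * max (-g j b v) 0 := by
      rw [← Finset.sum_add_distrib]
      apply Finset.sum_congr rfl
      intro b _
      rw [← Finset.sum_add_distrib]
      refine Finset.sum_congr rfl fun v _ => ?_
      rw [← mul_add, ← abs_pm]
    linarith
  have hmlt2 : ∀ j, ∑ b ∈ Bt, ∑ v ∈ (O b).filter
      (fun v => 2 ≤ (Bt.filter (fun b' => v ∈ O b')).card), |g j b v| ≤ 2 * ε1 := by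
    intro j
    have h1 := H.bch.mlt (Sum.inr (j, true))
    have h2 := H.bch.mlt (Sum.inr (j, false))
    simp only [Fm, if_true, Bool.false_eq_true, if_false] at h1 h2
    have e1 : ∑ b ∈ Bt, ∑ v ∈ (O b).filter
        (fun v => 2 ≤ (Bt.filter (fun b' => v ∈ O b')).card), |g j b v| =
        ∑ b ∈ Bt, ∑ v ∈ (O b).filter
          (fun v => 2 ≤ (Bt.filter (fun b' => v ∈ O b')).card), max (g j b v) 0 +
        ∑ b ∈ Bt, ∑ v ∈ (O b).filter
          (fun v => 2 ≤ (Bt.filter (fun b' => v ∈ O b')).card), max (-g j b v) 0 := by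
      rw [← Finset.sum_add_distrib]
      apply Finset.sum_congr rfl
      intro b _
      rw [← Finset.sum_add_distrib]
      exact Finset.sum_congr rfl fun v _ => abs_pm _
    linarith
  constructor
  · intro j
    rw [filt_bt Bt n H.bt, filt_bt Bt n H.bt]
    -- old colours
    have hold : ∑ b ∈ univ.filter (fun b : Fin P => (b : ℕ) < n),
        |∑ v ∈ univ.filter (fun v => v ∉ nU Bt A U ∧ ncol Bt A c v = b), g j b v| =
        ∑ b ∈ univ.filter (fun b : Fin P => (b : ℕ) < n),
        |∑ v ∈ univ.filter (fun v => v ∉ U ∧ c v = b), g j b v| := by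
      apply Finset.sum_congr rfl
      intro b hb
      rw [Finset.mem_filter] at hb
      have : univ.filter (fun v => v ∉ nU Bt A U ∧ ncol Bt A c v = b) =
          univ.filter (fun v => v ∉ U ∧ c v = b) := by
        ext v
        simp only [Finset.mem_filter, Finset.mem_univ, true_and, mem_nU]
        by_cases hv : v ∈ Bt.biUnion A
        · have h1 := ncol_mem c hv
          have h2 := hsub hv
          constructor
          · rintro ⟨-, h3⟩
            rw [h3, H.bt] at h1
            omega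
          · rintro ⟨h3, -⟩
            exact absurd h2 h3
        · rw [ncol_not c hv]
          constructor
          · rintro ⟨h3 | h3, h4⟩
            · exact ⟨h3, h4⟩
            · exact absurd h3 hv
          · rintro ⟨h3, h4⟩
            exact ⟨Or.inl h3, h4⟩
      rw [this]
    rw [hold]
    have ho := H.stt.o1 j
    -- new colours
    have hnew : ∀ b ∈ Bt, |∑ v ∈ univ.filter
        (fun v => v ∉ nU Bt A U ∧ ncol Bt A c v = b), g j b v| ≤
        |∑ v ∈ A b, g j b v| + ∑ v ∈ (O b).filter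
          (fun v => 2 ≤ (Bt.filter (fun b' => v ∈ O b')).card), |g j b v| := by
      intro b hb
      set cl := univ.filter (fun v => v ∉ nU Bt A U ∧ ncol Bt A c v = b) with hcl
      have h1 : cl ⊆ A b := by
        intro v hv
        rw [hcl, Finset.mem_filter] at hv
        obtain ⟨-, h2, h3⟩ := hv
        rw [mem_nU] at h2
        by_cases h4 : v ∈ Bt.biUnion A
        · have := (ncol_mem c h4).2
          rwa [h3] at this
        · rcases h2 with h2 | h2
          · rw [ncol_not c h4] at h3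
            have h5 := H.stt.low v h2
            rw [h3] at h5
            have h6 := ((H.bt b).1 hb).1
            omega
          · exact absurd h2 h4
      have h2 : A b \ cl ⊆ (O b).filter
          (fun v => 2 ≤ (Bt.filter (fun b' => v ∈ O b')).card) := by
        intro v hv
        rw [Finset.mem_sdiff] at hv
        obtain ⟨hv1, hv2⟩ := hv
        have h4 : v ∈ Bt.biUnion A := Finset.mem_biUnion.2 ⟨b, hb, hv1⟩
        have h5 := ncol_mem c h4
        have h6 : ncol Bt A c v ≠ b := by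
          intro h7
          apply hv2
          rw [hcl, Finset.mem_filter]
          exact ⟨Finset.mem_univ _, mem_nU.2 (Or.inr h4), h7⟩
        rw [Finset.mem_filter]
        refine ⟨H.bch.AO b hv1, ?_⟩
        have h8 : ({ncol Bt A c v, b} : Finset (Fin P)) ⊆ Bt.filter (fun b' => v ∈ O b') := by
          intro b' hb'
          rw [Finset.mem_insert, Finset.mem_singleton] at hb'
          rw [Finset.mem_filter]
          rcases hb' with rfl | rfl
          · exact ⟨h5.1, H.bch.AO _ h5.2⟩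
          · exact ⟨hb, H.bch.AO _ hv1⟩
        have h9 := Finset.card_le_card h8
        rwa [Finset.card_pair h6] at h9
      have h3 := Finset.sum_sdiff (f := fun v => g j b v) h1
      have h4 : ∑ v ∈ cl, g j b v = ∑ v ∈ A b, g j b v - ∑ v ∈ A b \ cl, g j b v := by
        linarith
      rw [h4]
      refine le_trans (abs_sub _ _) (add_le_add_right ?_ _)
      refine le_trans (Finset.abs_sum_le_sum_abs _ _) ?_
      exact Finset.sum_le_sum_of_subset_of_nonneg h2 fun v _ _ => abs_nonneg _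
    have h1 := Finset.sum_le_sum hnew
    rw [Finset.sum_add_distrib] at h1
    have h2 := hmlt2 j
    -- deviations
    have h3 : ∑ b ∈ Bt, |∑ v ∈ A b, g j b v| ≤
        ∑ b ∈ Bt, |∑ v ∈ A b, g j b v - ∑ v ∈ U, Pr v * g j b v| +
          ∑ b ∈ Bt, |∑ v ∈ U, Pr v * g j b v| := by
      rw [← Finset.sum_add_distrib]
      apply Finset.sum_le_sum
      intro b _
      have := abs_add_le (∑ v ∈ A b, g j b v - ∑ v ∈ U, Pr v * g j b v)
        (∑ v ∈ U, Pr v * g j b v)
      rwa [sub_add_cancel] at this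
    have h4 := H.bch.sgn j
    have h5 : ∑ b ∈ Bt, |∑ v ∈ U, Pr v * g j b v| ≤
        1 / (d : ℝ) * ∑ b ∈ Bt, |∑ v, g j b v| + z * κ := by
      rw [← hκs]
      apply Finset.sum_le_sum
      intro b _
      rw [hκ]
      exact (prU H j b).1
    have h6 := sq_new u z d D (e j) hd hz0 hu (H.e0 j) H.Dl
    have h7 := sq_step u z hz0 hzu
    have h8 := Real.sqrt_nonneg (e j)
    have h9 := mul_le_mul_of_nonneg_right h7 h8
    rw [hzd] at h4
    rw [mul_add]
    have h10 : 130 * (1 - √(u - z)) * √(e j) = 130 * (1 - √u) * √(e j) +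
        130 * (√u - √(u - z)) * √(e j) := by ring
    rw [h10]
    linarith
  · intro j
    rw [filt_bt Bt n H.bt, mul_add]
    have h1 : univ.filter (fun v => v ∉ nU Bt A U) =
        univ.filter (fun v => v ∉ U) ∪ Bt.biUnion A := by
      ext v
      simp only [Finset.mem_filter, Finset.mem_univ, true_and, mem_nU, Finset.mem_union]
    rw [h1, Finset.sum_union]
    swap
    · rw [Finset.disjoint_left]
      intro v hv hv'
      exact (Finset.mem_filter.1 hv).2 (hsub hv')
    have h2 : ∑ v ∈ univ.filter (fun v => v ∉ U), |g j (ncol Bt A c v) v| =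
        ∑ v ∈ univ.filter (fun v => v ∉ U), |g j (c v) v| := by
      apply Finset.sum_congr rfl
      intro v hv
      rw [ncol_not c fun h => (Finset.mem_filter.1 hv).2 (hsub h)]
    rw [h2]
    have h3 := H.stt.o2 j
    have h4 : ∑ v ∈ Bt.biUnion A, |g j (ncol Bt A c v) v| ≤ ∑ b ∈ Bt, ∑ v ∈ A b, |g j b v| := by
      have e1 : ∑ b ∈ Bt, ∑ v ∈ A b, |g j b v| =
          ∑ v, ∑ b ∈ Bt, if v ∈ A b then |g j b v| else 0 := by
        rw [Finset.sum_comm]
        apply Finset.sum_congr rfl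
        intro b _
        rw [← Finset.sum_filter]
        congr 1
        ext v
        simp
      rw [e1]
      have e2 : ∑ v ∈ Bt.biUnion A, |g j (ncol Bt A c v) v| ≤
          ∑ v ∈ Bt.biUnion A, ∑ b ∈ Bt, (if v ∈ A b then |g j b v| else 0) := by
        apply Finset.sum_le_sum
        intro v hv
        have h5 := ncol_mem c hv
        have h6 : (if v ∈ A (ncol Bt A c v) then |g j (ncol Bt A c v) v| else 0) ≤
            ∑ b ∈ Bt, (if v ∈ A b then |g j b v| else 0) := by
          apply Finset.single_le_sum (f := fun b => if v ∈ A b then |g j b v| else 0) _ h5.1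
          intro b _
          split_ifs
          · exact abs_nonneg _
          · exact le_rfl
        rwa [if_pos h5.2] at h6
      refine le_trans e2 ?_
      apply Finset.sum_le_sum_of_subset_of_nonneg (Finset.subset_univ _)
      intro v _ _
      apply Finset.sum_nonneg
      intro b _
      split_ifs
      · exact abs_nonneg _
      · exact le_rfl
    have h5 := hdev2 j
    have h6 : ∑ b ∈ Bt, ∑ v ∈ U, Pr v * |g j b v| ≤
        1 / (d : ℝ) * ∑ b ∈ Bt, ∑ v, |g j b v| + z * κ := by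
      rw [← hκs]
      apply Finset.sum_le_sum
      intro b _
      rw [hκ]
      exact (prU H j b).2
    linarith

end Pool.Agent.Work.MP_db9399_ow.helper59
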