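import Pool.Agent.Work.MP_db9399_ow.Interface

/-!
# MP_db9399, OWN, tools for the blocks STPI, STPO, STPC (helper59)
-/

set_option autoImplicit false

namespace Pool.Agent.Work.MP_db9399_ow.helper59

open Finset Classical
open Pool.Agent.Work.MP_db9399_all (nb mis pr DepOnI)
open Pool.Agent.Work.MP_db9399_en (ex)

universe u

section

variable {V : Type u} [Fintype V] {P : ℕ}

theorem mem_nb' {G : SimpleGraph V} {v w : V} : w ∈ nb G v ↔ G.Adj v w := by
  simp [nb]

/-- the new colour of a vertex of a class -/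
theorem ncol_mem {Bt : Finset (Fin P)} {A : Fin P → Finset V} (c : V → Fin P) {w : V}
    (h : w ∈ Bt.biUnion A) : ncol Bt A c w ∈ Bt ∧ w ∈ A (ncol Bt A c w) := by
  have h1 : (Bt.filter (fun b => w ∈ A b)).Nonempty := by
    obtain ⟨b, hb, hw⟩ := Finset.mem_biUnion.1 h
    exact ⟨b, Finset.mem_filter.2 ⟨hb, hw⟩⟩
  have h2 := Finset.min'_mem _ h1
  unfold ncol
  rw [dif_pos h1]
  exact Finset.mem_filter.1 h2

theorem ncol_le {Bt : Finset (Fin P)} {A : Fin P → Finset V} (c : V → Fin P) {w : V}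
    {b : Fin P} (hb : b ∈ Bt) (hw : w ∈ A b) : ncol Bt A c w ≤ b := by
  have h0 : b ∈ Bt.filter (fun b => w ∈ A b) := Finset.mem_filter.2 ⟨hb, hw⟩
  have h1 : (Bt.filter (fun b => w ∈ A b)).Nonempty := ⟨b, h0⟩
  unfold ncol
  rw [dif_pos h1]
  exact Finset.min'_le _ _ h0

theorem ncol_not {Bt : Finset (Fin P)} {A : Fin P → Finset V} (c : V → Fin P) {w : V}
    (h : w ∉ Bt.biUnion A) : ncol Bt A c w = c w := by
  have h1 : ¬ (Bt.filter (fun b => w ∈ A b)).Nonempty := by
    rintro ⟨b, hb⟩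
    exact h (Finset.mem_biUnion.2 ⟨b, (Finset.mem_filter.1 hb).1, (Finset.mem_filter.1 hb).2⟩)
  unfold ncol
  rw [dif_neg h1]

/-- the sum over the classes counts a vertex with its multiplicity -/
theorem mult_le (Bt : Finset (Fin P)) (A O : Fin P → Finset V) (hAO : ∀ b, A b ⊆ O b)
    (h : V → ℝ) (h0 : ∀ v, 0 ≤ h v) :
    ∑ b ∈ Bt, ∑ v ∈ A b, h v ≤ ∑ v ∈ Bt.biUnion A, h v +
      ∑ b ∈ Bt, ∑ v ∈ (O b).filter (fun v => 2 ≤ (Bt.filter (fun b' => v ∈ O b')).card), h v := by
  have e1 : ∑ b ∈ Bt, ∑ v ∈ A b, h v =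
      ∑ v, ((Bt.filter (fun b => v ∈ A b)).card : ℝ) * h v := by
    have : ∀ b ∈ Bt, ∑ v ∈ A b, h v = ∑ v, if v ∈ A b then h v else 0 := by
      intro b _
      rw [← Finset.sum_filter]
      congr 1
      ext v
      simp
    rw [Finset.sum_congr rfl this, Finset.sum_comm]
    apply Finset.sum_congr rfl
    intro v _
    rw [← Finset.sum_filter, Finset.sum_const, nsmul_eq_mul]
  have e2 : ∑ b ∈ Bt, ∑ v ∈ (O b).filter
      (fun v => 2 ≤ (Bt.filter (fun b' => v ∈ O b')).card), h v =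
      ∑ v, (if 2 ≤ (Bt.filter (fun b' => v ∈ O b')).card then
        ((Bt.filter (fun b => v ∈ O b)).card : ℝ) * h v else 0) := by
    have : ∀ b ∈ Bt, ∑ v ∈ (O b).filter
        (fun v => 2 ≤ (Bt.filter (fun b' => v ∈ O b')).card), h v =
        ∑ v, if v ∈ O b then
          (if 2 ≤ (Bt.filter (fun b' => v ∈ O b')).card then h v else 0) else 0 := by
      intro b _
      rw [Finset.sum_filter, ← Finset.sum_filter]
      rw [← Finset.sum_filter (s := univ) (p := fun v => v ∈ O b)]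
      have : (univ.filter (fun v => v ∈ O b)) = O b := by
        ext v
        simp
      rw [this, Finset.sum_filter]
    rw [Finset.sum_congr rfl this, Finset.sum_comm]
    apply Finset.sum_congr rfl
    intro v _
    rw [← Finset.sum_filter, Finset.sum_const, nsmul_eq_mul]
    split_ifs <;> simp
  have e3 : ∑ v ∈ Bt.biUnion A, h v = ∑ v, if v ∈ Bt.biUnion A then h v else 0 := by
    rw [← Finset.sum_filter]
    congr 1
    ext v
    simp
  rw [e1, e2, e3, ← Finset.sum_add_distrib]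
  apply Finset.sum_le_sum
  intro v _
  have hle : (Bt.filter (fun b => v ∈ A b)).card ≤ (Bt.filter (fun b => v ∈ O b)).card := by
    apply Finset.card_le_card
    intro b hb
    rw [Finset.mem_filter] at hb ⊢
    exact ⟨hb.1, hAO b hb.2⟩
  rcases Nat.lt_or_ge (Bt.filter (fun b => v ∈ A b)).card 2 with h2 | h2
  · by_cases h3 : v ∈ Bt.biUnion A
    · rw [if_pos h3]
      have h4 : ((Bt.filter (fun b => v ∈ A b)).card : ℝ) ≤ 1 := by
        exact_mod_cast Nat.lt_succ_iff.1 h2
      have h5 : 0 ≤ (if 2 ≤ (Bt.filter (fun b' => v ∈ O b')).card then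
          ((Bt.filter (fun b => v ∈ O b)).card : ℝ) * h v else 0) := by
        split_ifs
        · exact mul_nonneg (Nat.cast_nonneg _) (h0 v)
        · exact le_rfl
      have h6 := mul_le_mul_of_nonneg_right h4 (h0 v)
      linarith
    · have h4 : (Bt.filter (fun b => v ∈ A b)) = ∅ := by
        rw [Finset.filter_eq_empty_iff]
        intro b hb hv
        exact h3 (Finset.mem_biUnion.2 ⟨b, hb, hv⟩)
      rw [if_neg h3, h4]
      have h5 : 0 ≤ (if 2 ≤ (Bt.filter (fun b' => v ∈ O b')).card then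
          ((Bt.filter (fun b => v ∈ O b)).card : ℝ) * h v else 0) := by
        split_ifs
        · exact mul_nonneg (Nat.cast_nonneg _) (h0 v)
        · exact le_rfl
      simpa using h5
  · have h3 : 2 ≤ (Bt.filter (fun b' => v ∈ O b')).card := le_trans h2 hle
    rw [if_pos h3]
    have h4 : ((Bt.filter (fun b => v ∈ A b)).card : ℝ) ≤
        ((Bt.filter (fun b => v ∈ O b)).card : ℝ) := by exact_mod_cast hle
    have h5 := mul_le_mul_of_nonneg_right h4 (h0 v)
    have h6 : 0 ≤ (if v ∈ Bt.biUnion A then h v else 0) := by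
      split_ifs
      · exact h0 v
      · exact le_rfl
    linarith

theorem bi_le (Bt : Finset (Fin P)) (A : Fin P → Finset V)
    (h : V → ℝ) (h0 : ∀ v, 0 ≤ h v) :
    ∑ v ∈ Bt.biUnion A, h v ≤ ∑ b ∈ Bt, ∑ v ∈ A b, h v := by
  have e1 : ∑ b ∈ Bt, ∑ v ∈ A b, h v =
      ∑ v, ((Bt.filter (fun b => v ∈ A b)).card : ℝ) * h v := by
    have : ∀ b ∈ Bt, ∑ v ∈ A b, h v = ∑ v, if v ∈ A b then h v else 0 := by
      intro b _
      rw [← Finset.sum_filter]
      congr 1
      ext v
      simp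
    rw [Finset.sum_congr rfl this, Finset.sum_comm]
    apply Finset.sum_congr rfl
    intro v _
    rw [← Finset.sum_filter, Finset.sum_const, nsmul_eq_mul]
  have e3 : ∑ v ∈ Bt.biUnion A, h v = ∑ v, if v ∈ Bt.biUnion A then h v else 0 := by
    rw [← Finset.sum_filter]
    congr 1
    ext v
    simp
  rw [e1, e3]
  apply Finset.sum_le_sum
  intro v _
  split_ifs with h3
  · obtain ⟨b, hb, hv⟩ := Finset.mem_biUnion.1 h3
    have h4 : (1 : ℝ) ≤ ((Bt.filter (fun b => v ∈ A b)).card : ℝ) := by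
      have : 0 < (Bt.filter (fun b => v ∈ A b)).card :=
        Finset.card_pos.2 ⟨b, Finset.mem_filter.2 ⟨hb, hv⟩⟩
      exact_mod_cast this
    have := mul_le_mul_of_nonneg_right h4 (h0 v)
    linarith
  · exact mul_nonneg (Nat.cast_nonneg _) (h0 v)

end

section

variable {V : Type u} [Fintype V] {P : ℕ} {J R : Type u} [Fintype J] [Fintype R]
  {G : SimpleGraph V} {d : ℕ} {g : J → Fin P → V → ℝ} {e : J → ℝ}
  {Q : R → Finset (Fin P × V)} {U : Finset V} {c : V → Fin P} {n : ℕ} {u er rr gn ν : ℝ}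
  {D : ℕ} {Bt : Finset (Fin P)} {Pr : V → ℝ} {γ η ε ε1 νb a : ℝ} {A O : Fin P → Finset V}

theorem upos (H : Hyp G d g e Q U c n u er rr gn ν D Bt Pr γ η ε ε1 νb a A O) : 0 < u :=
  lt_of_le_of_lt (by positivity) H.uz

theorem biU (H : Hyp G d g e Q U c n u er rr gn ν D Bt Pr γ η ε ε1 νb a A O) :
    Bt.biUnion A ⊆ U := by
  intro v hv
  obtain ⟨b, _, hb⟩ := Finset.mem_biUnion.1 hv
  exact H.bch.OU b (H.bch.AO b hb)

theorem Hc_nn (τ : V ⊕ (J × Fin P × Bool)) (v : V) : 0 ≤ Hc G d g τ v := by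
  rcases τ with w | ⟨j, b, s⟩
  · simp only [Hc]
    split_ifs
    · positivity
    · exact le_rfl
  · exact le_max_right _ _

theorem abs_pm (x : ℝ) : |x| = max x 0 + max (-x) 0 := by
  rcases le_total 0 x with h | h
  · rw [abs_of_nonneg h, max_eq_left h, max_eq_right (by linarith)]
    ring
  · rw [abs_of_nonpos h, max_eq_right h, max_eq_left (by linarith)]
    ring

theorem eq_pm (x : ℝ) : x = max x 0 - max (-x) 0 := by
  rcases le_total 0 x with h | h
  · rw [max_eq_left h, max_eq_right (by linarith : -x ≤ 0)]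
    ring
  · rw [max_eq_right h, max_eq_left (by linarith : 0 ≤ -x)]
    ring

/-- degree into `U` -/
theorem nU_deg (H : Hyp G d g e Q U c n u er rr gn ν D Bt Pr γ η ε ε1 νb a A O) (v : V) :
    |((nb G v ∩ U).card : ℝ) - u * d| ≤ (2 * er / u + η) * (u * d) := by
  have hu := upos H
  have hd : (0 : ℝ) < d := by exact_mod_cast H.d0
  have h1 := H.stt.inv (Sum.inl v)
  have e1 : ∑ w ∈ U, Hc G d g (Sum.inl v) w = ((nb G v ∩ U).card : ℝ) / (2 * d) := by
    simp only [Hc]
    rw [← Finset.sum_filter, Finset.sum_const, nsmul_eq_mul]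
    have : U.filter (fun w => G.Adj v w) = nb G v ∩ U := by
      ext w
      simp [nb, and_comm]
    rw [this]
    ring
  have e2 : ∑ w, Hc G d g (Sum.inl v) w = ((nb G v).card : ℝ) / (2 * d) := by
    simp only [Hc]
    rw [← Finset.sum_filter, Finset.sum_const, nsmul_eq_mul]
    have : univ.filter (fun w => G.Adj v w) = nb G v := rfl
    rw [this]
    ring
  rw [e1, e2] at h1
  have h2 : |((nb G v ∩ U).card : ℝ) - u * (nb G v).card| ≤ 2 * d * er := by
    have h3 : ((nb G v ∩ U).card : ℝ) - u * (nb G v).card =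
        (((nb G v ∩ U).card : ℝ) / (2 * d) - u * (((nb G v).card : ℝ) / (2 * d))) * (2 * d) := by
      field_simp
    rw [h3, abs_mul, abs_of_pos (by positivity : (0 : ℝ) < 2 * d)]
    nlinarith
  have h4 := H.deg v
  have h5 : |u * (nb G v).card - u * d| ≤ u * (η * d) := by
    rw [← mul_sub, abs_mul, abs_of_pos hu]
    exact mul_le_mul_of_nonneg_left h4 hu.le
  have h6 := abs_add_le (((nb G v ∩ U).card : ℝ) - u * (nb G v).card)
    (u * (nb G v).card - u * d)
  rw [sub_add_sub_cancel] at h6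
  refine le_trans h6 ?_
  have h7 : (2 * er / u + η) * (u * d) = 2 * d * er + u * (η * d) := by
    field_simp
  rw [h7]
  linarith

/-- the probabilities are almost `1 / (u d)` -/
theorem pr_bound (H : Hyp G d g e Q U c n u er rr gn ν D Bt Pr γ η ε ε1 νb a A O) (v : V)
    (hv : v ∈ U) :
    |Pr v - 1 / (u * d)| ≤ (4 * er / u + 2 * η + 2 * γ) / (u * d) := by
  have hu := upos H
  have hd : (0 : ℝ) < d := by exact_mod_cast H.d0
  have hud : 0 < u * d := mul_pos hu hd
  set t := 2 * er / u + η with ht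
  have ht0 : 0 ≤ t := by
    have := H.er0
    have := H.η0
    positivity
  have ht1 : t ≤ 1 / 10 := H.th
  have hn := abs_le.1 (nU_deg H v)
  rw [← ht] at hn
  set N : ℝ := ((nb G v ∩ U).card : ℝ) with hN
  have hN0 : 0 ≤ N := Nat.cast_nonneg _
  have h1 := H.pr1 v hv
  have h2 := H.pr2 v hv
  rw [← hN] at h1 h2
  have hg0 := H.ga0
  have hg1 := H.ga1
  have hg2 : 1 ≤ γ * (u * d) := by
    have := H.ga2
    rwa [div_le_iff₀ hud] at this
  have e : 4 * er / u + 2 * η + 2 * γ = 2 * t + 2 * γ := by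
    rw [ht]
    ring
  rw [e, abs_le]
  constructor
  · -- lower bound
    have h3 : (1 - t - 2 * γ) / (u * d) ≤ (1 - γ) / (N + 1) := by
      rw [div_le_div_iff₀ hud (by linarith)]
      have h4 : N + 1 ≤ (1 + t + γ) * (u * d) := by nlinarith
      rcases le_total 0 (1 - t - 2 * γ) with h5 | h5
      · calc (1 - t - 2 * γ) * (N + 1) ≤ (1 - t - 2 * γ) * ((1 + t + γ) * (u * d)) :=
              mul_le_mul_of_nonneg_left h4 h5
          _ = ((1 - t - 2 * γ) * (1 + t + γ)) * (u * d) := by ring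
          _ ≤ (1 - γ) * (u * d) := by
              apply mul_le_mul_of_nonneg_right _ hud.le
              nlinarith [mul_nonneg ht0 hg0, mul_nonneg hg0 hg0, mul_nonneg ht0 ht0]
      · have h6 : (1 - t - 2 * γ) * (N + 1) ≤ 0 :=
          mul_nonpos_of_nonpos_of_nonneg h5 (by linarith)
        have h7 : 0 ≤ (1 - γ) * (u * d) := mul_nonneg (by linarith) hud.le
        linarith
    have h4 : -((2 * t + 2 * γ) / (u * d)) = (1 - 2 * t - 2 * γ) / (u * d) - 1 / (u * d) := by
      ring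
    rw [h4]
    have h5 : (1 - 2 * t - 2 * γ) / (u * d) ≤ (1 - t - 2 * γ) / (u * d) :=
      div_le_div_of_nonneg_right (by linarith) hud.le
    linarith
  · have h3 : 1 / (N + 1) ≤ (1 + 2 * t + 2 * γ) / (u * d) := by
      rw [div_le_div_iff₀ (by linarith) hud]
      have h4 : (1 - t) * (u * d) ≤ N + 1 := by nlinarith
      have h5 : 1 * (u * d) ≤ (1 + 2 * t) * ((1 - t) * (u * d)) := by
        have : 1 ≤ (1 + 2 * t) * (1 - t) := by nlinarith
        nlinarith
      have h6 : (1 + 2 * t) * ((1 - t) * (u * d)) ≤ (1 + 2 * t + 2 * γ) * (N + 1) := by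
        apply mul_le_mul _ h4 _ _
        · linarith
        · exact mul_nonneg (by linarith) hud.le
        · linarith
      linarith
    have h4 : (1 + 2 * t + 2 * γ) / (u * d) = 1 / (u * d) + (2 * t + 2 * γ) / (u * d) := by
      ring
    rw [h4] at h3
    linarith

/-- sums over `U` with the probabilities -/
theorem sumPr (H : Hyp G d g e Q U c n u er rr gn ν D Bt Pr γ η ε ε1 νb a A O) (f : V → ℝ) :
    |∑ v ∈ U, Pr v * f v - 1 / (u * d) * ∑ v ∈ U, f v| ≤
      (4 * er / u + 2 * η + 2 * γ) / (u * d) * ∑ v ∈ U, |f v| := by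
  rw [Finset.mul_sum, ← Finset.sum_sub_distrib, Finset.mul_sum]
  refine le_trans (Finset.abs_sum_le_sum_abs _ _) ?_
  apply Finset.sum_le_sum
  intro v hv
  rw [← sub_mul, abs_mul]
  exact mul_le_mul_of_nonneg_right (pr_bound H v hv) (abs_nonneg _)

theorem mem_nU {v : V} : v ∉ nU Bt A U ↔ v ∉ U ∨ v ∈ Bt.biUnion A := by
  unfold nU
  rw [Finset.mem_sdiff]
  tauto

end

end Pool.Agent.Work.MP_db9399_ow.helper59
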